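import Pool.Agent.Helper96.ME.Lib

/-!
# MP_bde085_nt, block E, modules RNK and GIND
-/

set_option autoImplicit false

namespace Pool.Agent.Helper96.ME

open Pool.Agent.Helper96.MP
open scoped MatrixGroups

/-- the space of functions reproduced by `φ` -/
def rnk_U {R : Type} [CommRing R] [Finite R] (φ : SL(2, R) → ℝ) :
    Submodule ℂ (SL(2, R) → ℂ) where
  carrier := {w | YS φ w}
  zero_mem' := by
    intro y
    simp
  add_mem' := by
    intro a b ha hb y
    have h1 := ha y
    have h2 := hb y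
    have h3 : ∑ᶠ x : SL(2, R), φ x • (a + b) (x * y) =
        ∑ᶠ x : SL(2, R), (φ x • a (x * y) + φ x • b (x * y)) := by
      apply finsum_congr
      intro x
      rw [Pi.add_apply, smul_add]
    rw [h3, finsum_add_distrib (Set.toFinite _) (Set.toFinite _), h1, h2, Pi.add_apply, smul_add]
  smul_mem' := by
    intro c a ha y
    have h1 := ha y
    have h3 : ∑ᶠ x : SL(2, R), φ x • (c • a) (x * y) =
        ∑ᶠ x : SL(2, R), c • (φ x • a (x * y)) := by
      apply finsum_congr
      intro x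
      rw [Pi.smul_apply, smul_comm]
    rw [h3, ← smul_finsum, h1, Pi.smul_apply, smul_comm]

theorem rnk_mem {R : Type} [CommRing R] [Finite R] (φ : SL(2, R) → ℝ) (w : SL(2, R) → ℂ) :
    w ∈ rnk_U φ ↔ YS φ w := Iff.rfl

/-- RNK -/
theorem st_RNK (hS : ST_SINV) (hT : ST_TRC) (hE : ST_EIS) (hC : ST_CUS) : ST_RNK := by
  intro p hp φ h0
  haveI : Fact p.Prime := ⟨hp⟩
  have hφ : Sph (ZMod p) φ := hS p hp φ h0
  refine ⟨hφ, ?_⟩
  have hmem := rnk_mem φ
  have h1 := (hT (ZMod p) φ hφ).2 (rnk_U φ) hmem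
  have hsq : 0 ≤ sq φ := by
    unfold sq
    exact finsum_nonneg (fun x => sq_nonneg (φ x))
  have hr : Module.finrank ℂ (rnk_U φ) ≤ p + 1 := by
    by_cases hc : ∃ w ∈ rnk_U φ, w ≠ 0 ∧
        ∀ (b : ZMod p) (y : SL(2, ZMod p)), w (y * un b) = w y
    · obtain ⟨w, hw, hne, hb⟩ := hc
      exact hE p hp φ hφ (rnk_U φ) hmem w hw hne hb
    · refine hC p hp φ hφ (rnk_U φ) hmem ?_
      intro w hw hb
      by_contra hne
      exact hc ⟨w, hw, hne, hb⟩
  have hr' : (Module.finrank ℂ (rnk_U φ) : ℝ) ≤ (p : ℝ) + 1 := by exact_mod_cast hr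
  rw [← h1]
  exact mul_le_mul_of_nonneg_right hr' hsq

theorem gind_psi_one : psi 1 = 1 := by
  unfold psi
  simp

theorem gind_psi_nonneg (M : ℕ) : 0 ≤ psi M := by
  unfold psi
  positivity

theorem gind_psi_mul (p m : ℕ) (hp : p.Prime) (hm : Nat.Coprime p m) (hm0 : m ≠ 0) :
    psi (p * m) = ((p : ℝ) + 1) * psi m := by
  unfold psi
  have h1 : (p * m).primeFactors = p.primeFactors ∪ m.primeFactors :=
    Nat.primeFactors_mul hp.ne_zero hm0
  have h2 : Disjoint p.primeFactors m.primeFactors := Nat.Coprime.disjoint_primeFactors hm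
  rw [h1, Finset.prod_union h2, hp.primeFactors, Finset.prod_singleton]
  have hp0 : (p : ℝ) ≠ 0 := by exact_mod_cast hp.ne_zero
  push_cast
  field_simp

/-- GIND -/
theorem st_GIND (hR : ST_RNK) (hP : ST_PRDS) : ST_GIND := by
  intro M
  induction M using Nat.strong_induction_on with
  | _ M ih =>
    intro hM hsf
    rcases Nat.eq_or_lt_of_le hM with h1 | h1
    · subst h1
      intro φ h0
      haveI : Subsingleton (SL(2, ZMod 1)) := ⟨fun a b => by
        apply Lib.ext4 <;> exact Subsingleton.elim _ _⟩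
      have hg : ∀ g : SL(2, ZMod 1), φ g = 1 := by
        intro g
        rw [Subsingleton.elim g 1, h0.one]
      refine ⟨⟨h0.one, h0.left, h0.sig, h0.sph, fun g => by rw [hg, hg]⟩, ?_⟩
      have hsq : sq φ = 1 := by
        unfold sq
        haveI : Unique (SL(2, ZMod 1)) := ⟨⟨1⟩, fun a => Subsingleton.elim _ _⟩
        rw [finsum_unique, hg, one_pow]
      rw [hsq, gind_psi_one]
      have hc : Nat.card (SL(2, ZMod 1)) = 1 := Nat.card_unique
      rw [hc]
      norm_num
    · obtain ⟨p, hp, m, rfl⟩ := Nat.exists_prime_and_dvd (Nat.ne_of_gt h1)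
      have hm0 : m ≠ 0 := by
        rintro rfl
        simp at h1
      have hco : Nat.Coprime p m := Nat.coprime_of_squarefree_mul hsf
      have hsm : Squarefree m := hsf.of_mul_right
      have hlt : m < p * m := by
        have := hp.two_le
        have : 1 ≤ m := Nat.one_le_iff_ne_zero.2 hm0
        nlinarith
      have hm := ih m hlt (Nat.one_le_iff_ne_zero.2 hm0) hsm
      haveI : Fact p.Prime := ⟨hp⟩
      haveI : NeZero m := ⟨hm0⟩
      have h2 := hP.1 (ZMod p) (ZMod m) ((p : ℝ) + 1) (psi m) (by positivity)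
        (gind_psi_nonneg m) (hR p hp) hm
      rw [gind_psi_mul p m hp hco hm0]
      exact hP.2 (ZMod p × ZMod m) (ZMod (p * m)) (ZMod.chineseRemainder hco).symm _ h2

end Pool.Agent.Helper96.ME
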